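import Mathlib
import Pool.Agent.H19.RPProduct

/-! Product of gadgets in which up to `rest` missed edges are met in the spare parts
(variant of helper19's `product_constr`). -/

namespace H19RP

open Finset

theorem product_constr_rest (g K p s s' rest k r : ℕ) [NeZero p] (ε : ℝ) (hε : 0 ≤ ε) (hε1 : ε ≤ 1)
    (hG : GadgetProp g K p ε) (hK : 1 ≤ K) (hs : s' ≤ s)
    (hr : s * (2 * (p * g)) + rest + 1 = r) (hk : (k : ℝ) * ε ^ s' < rest + 1) :
    ∃ H : Finset (Fin r → ℕ), IntersectinglyCovered k H ∧
      ((s - s' + 1) * (g * p ^ 2)) / 18 ≤ tau H := by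
  classical
  have hne : Nonempty (Fin K) := ⟨⟨0, hK⟩⟩
  set t := ((s - s' + 1) * (g * p ^ 2)) / 18 + 1 with ht
  let ι := (Fin s × (Bool × Dir p g)) ⊕ Fin rest
  let V := ZMod p ⊕ Fin t
  let miss : (ι → V) → Fin s → Finset (Atom p K) := fun e b =>
    univ.filter (fun x => ∀ β d, e (Sum.inl (b, β, d)) ≠ Sum.inl (lin d x))
  let good : (ι → V) → Finset (Fin s) := fun e =>
    univ.filter (fun b => ((miss e b).card : ℝ) ≤ (Fintype.card (Atom p K) : ℝ) * ε)
  let H₁ : Finset (ι → V) := univ.filter (fun e => s' ≤ (good e).card)
  have hXpos : (0 : ℝ) < Fintype.card (Atom p K) := by exact_mod_cast Fintype.card_pos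
  have key : ∃ H : Finset (Fin r → ℕ), IntersectinglyCovered k H ∧ t ≤ tau H := by
    apply assembly (ι := ι) (V := V) r k t _ H₁
    · -- covering of `k` edges
      intro S hS hSk
      have h4 : ∀ e ∈ S, ∏ b, ((miss e b).card : ℝ) ≤ ε ^ s' * (Fintype.card (Atom p K) : ℝ) ^ s := by
        intro e he
        have hge : s' ≤ (good e).card := (Finset.mem_filter.mp (hS he)).2
        have h5 : ∀ b, ((miss e b).card : ℝ) ≤
            (if b ∈ good e then ε else 1) * (Fintype.card (Atom p K) : ℝ) := by
          intro b
          split_ifs with hb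
          · have := (Finset.mem_filter.mp hb).2
            linarith
          · rw [one_mul]
            exact_mod_cast Finset.card_le_univ _
        calc ∏ b, ((miss e b).card : ℝ)
            ≤ ∏ b, ((if b ∈ good e then ε else 1) * (Fintype.card (Atom p K) : ℝ)) := by
              apply Finset.prod_le_prod
              · intro b _; positivity
              · intro b _; exact h5 b
          _ = ε ^ (good e).card * (Fintype.card (Atom p K) : ℝ) ^ s := by
              rw [Finset.prod_mul_distrib, Finset.prod_const, Finset.card_univ, Fintype.card_fin,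
                Finset.prod_ite, Finset.prod_const, Finset.prod_const_one, mul_one]
              congr 3
              ext b; simp
          _ ≤ ε ^ s' * (Fintype.card (Atom p K) : ℝ) ^ s := by
              apply mul_le_mul_of_nonneg_right _ (by positivity)
              exact pow_le_pow_of_le_one hε hε1 hge
      -- some point misses at most `rest` edges
      have hx : ∃ x : Fin s → Atom p K, (S.filter (fun e => ∀ b, x b ∈ miss e b)).card ≤ rest := by
        by_contra hno
        push Not at hno
        have h1 : ∑ x : Fin s → Atom p K, (rest + 1) ≤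
            ∑ x : Fin s → Atom p K, (S.filter (fun e => ∀ b, x b ∈ miss e b)).card :=
          Finset.sum_le_sum (fun x _ => hno x)
        have h2 : ∑ x : Fin s → Atom p K, (S.filter (fun e => ∀ b, x b ∈ miss e b)).card =
            ∑ e ∈ S, (Fintype.piFinset (miss e)).card := by
          simp_rw [Finset.card_filter]
          rw [Finset.sum_comm]
          apply Finset.sum_congr rfl
          intro e _
          rw [← Finset.card_filter]
          congr 1
          ext x
          simp [Fintype.mem_piFinset]
        rw [h2, Finset.sum_const, Finset.card_univ, Fintype.card_fun, Fintype.card_fin,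
          smul_eq_mul] at h1
        have h5 : ∀ e, ((Fintype.piFinset (miss e)).card : ℝ) = ∏ b, ((miss e b).card : ℝ) := by
          intro e
          rw [Fintype.card_piFinset]; push_cast; rfl
        have h6 : ((Fintype.card (Atom p K) ^ s * (rest + 1) : ℕ) : ℝ) ≤
            ((∑ e ∈ S, (Fintype.piFinset (miss e)).card : ℕ) : ℝ) := by exact_mod_cast h1
        rw [Nat.cast_sum] at h6
        simp_rw [h5] at h6
        push_cast at h6
        have h7 : (Fintype.card (Atom p K) : ℝ) ^ s * (rest + 1) ≤
            k * (ε ^ s' * (Fintype.card (Atom p K) : ℝ) ^ s) := by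
          refine h6.trans ((Finset.sum_le_sum h4).trans ?_)
          rw [Finset.sum_const, nsmul_eq_mul]
          apply mul_le_mul_of_nonneg_right _ (by positivity)
          exact_mod_cast hSk
        have h8 : 0 < (Fintype.card (Atom p K) : ℝ) ^ s := by positivity
        nlinarith
      obtain ⟨x, hx⟩ := hx
      set M := S.filter (fun e => ∀ b, x b ∈ miss e b) with hM
      let T : ι → V := fun i =>
        match i with
        | Sum.inl (b, _, d) => Sum.inl (lin d (x b))
        | Sum.inr j => if h : j.val < M.card then (M.equivFin.symm ⟨j.val, h⟩).val (Sum.inr j)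
            else Sum.inl 0
      refine ⟨T, fun e he => ?_⟩
      by_cases hm : e ∈ M
      · have hj : (M.equivFin ⟨e, hm⟩).val < rest := lt_of_lt_of_le (M.equivFin ⟨e, hm⟩).isLt hx
        refine ⟨Sum.inr ⟨(M.equivFin ⟨e, hm⟩).val, hj⟩, ?_⟩
        have hlt : (M.equivFin ⟨e, hm⟩).val < M.card := (M.equivFin ⟨e, hm⟩).isLt
        simp only [T, hlt, dif_pos]
        simp
      · have h9 : ∃ b, x b ∉ miss e b := by
          by_contra hcon
          push Not at hcon
          exact hm (Finset.mem_filter.mpr ⟨he, hcon⟩)
        obtain ⟨b, hb⟩ := h9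
        simp only [miss, Finset.mem_filter, Finset.mem_univ, true_and, not_forall, not_not] at hb
        obtain ⟨β, d, hd⟩ := hb
        exact ⟨Sum.inl (b, β, d), hd.symm⟩
    · -- covers are large
      intro W hW
      let W₁ : Fin s → Dir p g → Finset (ZMod p) := fun b d =>
        univ.filter (fun v => ((Sum.inl (b, false, d) : ι), (Sum.inl v : V)) ∈ W)
      let W₂ : Fin s → Dir p g → Finset (ZMod p) := fun b d =>
        univ.filter (fun v => ((Sum.inl (b, true, d) : ι), (Sum.inl v : V)) ∈ W)
      let w : Fin s → ℕ := fun b => ∑ d, (W₁ b d).card + ∑ d, (W₂ b d).card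
      have hsumw : ∑ b, w b ≤ W.card := by
        have h1 : ∀ b, w b = ∑ q : Bool × Dir p g,
            (univ.filter (fun v : ZMod p => ((Sum.inl (b, q.1, q.2) : ι), (Sum.inl v : V)) ∈ W)).card := by
          intro b
          rw [Fintype.sum_prod_type]
          simp only [Fintype.sum_bool, w, W₁, W₂]
          rw [add_comm]
        simp_rw [h1]
        have h2 : ∑ b : Fin s, ∑ q : Bool × Dir p g,
            (univ.filter (fun v : ZMod p => ((Sum.inl (b, q.1, q.2) : ι), (Sum.inl v : V)) ∈ W)).card
            = ∑ bq : Fin s × (Bool × Dir p g),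
            (univ.filter (fun v : ZMod p => ((Sum.inl bq : ι), (Sum.inl v : V)) ∈ W)).card := by
          rw [Fintype.sum_prod_type]
        rw [h2, ← Finset.card_sigma]
        apply Finset.card_le_card_of_injOn (fun y => ((Sum.inl y.1 : ι), (Sum.inl y.2 : V)))
        · rintro ⟨bq, v⟩ hy
          simp only [Finset.coe_sigma, Set.mem_sigma_iff, Finset.mem_coe, Finset.mem_filter] at hy
          exact hy.2.2
        · rintro ⟨bq, v⟩ _ ⟨bq', v'⟩ _ h
          simp only [Prod.mk.injEq, Sum.inl.injEq] at h
          obtain ⟨rfl, rfl⟩ := h
          rfl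
      -- private value
      have hm : ∃ m : Fin t, ∀ i : ι, (i, (Sum.inr m : V)) ∉ W := by
        by_contra hno
        push Not at hno
        choose f hf using hno
        have : (univ : Finset (Fin t)).card ≤ W.card := by
          apply Finset.card_le_card_of_injOn (fun m => (f m, (Sum.inr m : V)))
          · intro m _; exact hf m
          · intro m _ m' _ h
            simp only [Prod.mk.injEq, Sum.inr.injEq] at h
            exact h.2
        rw [Finset.card_univ, Fintype.card_fin] at this
        omega
      obtain ⟨m, hm⟩ := hm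
      let Gd : Finset (Fin s) := univ.filter (fun b => 18 * w b ≤ g * p ^ 2)
      have hGd : s' ≤ Gd.card := by
        by_contra hlt
        push Not at hlt
        have h1 : s - s' + 1 ≤ (univ.filter (fun b => ¬ 18 * w b ≤ g * p ^ 2)).card := by
          have := Finset.card_filter_add_card_filter_not (s := (univ : Finset (Fin s)))
            (fun b => 18 * w b ≤ g * p ^ 2)
          rw [Finset.card_univ, Fintype.card_fin] at this
          have h2 : (univ.filter (fun b => 18 * w b ≤ g * p ^ 2)).card = Gd.card := rfl
          omega
        have h2 : (univ.filter (fun b => ¬ 18 * w b ≤ g * p ^ 2)).card * (g * p ^ 2 + 1) ≤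
            18 * ∑ b, w b := by
          rw [Finset.mul_sum]
          calc _ = ∑ b ∈ univ.filter (fun b => ¬ 18 * w b ≤ g * p ^ 2), (g * p ^ 2 + 1) := by
                rw [Finset.sum_const, smul_eq_mul]
            _ ≤ ∑ b ∈ univ.filter (fun b => ¬ 18 * w b ≤ g * p ^ 2), 18 * w b := by
                apply Finset.sum_le_sum
                intro b hb
                have := (Finset.mem_filter.mp hb).2
                omega
            _ ≤ ∑ b, 18 * w b := Finset.sum_le_sum_of_subset (Finset.filter_subset _ _)
        have h3 : (s - s' + 1) * (g * p ^ 2 + 1) ≤ 18 * W.card := by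
          calc _ ≤ (univ.filter (fun b => ¬ 18 * w b ≤ g * p ^ 2)).card * (g * p ^ 2 + 1) :=
                Nat.mul_le_mul_right _ h1
            _ ≤ 18 * ∑ b, w b := h2
            _ ≤ 18 * W.card := Nat.mul_le_mul_left _ hsumw
        have h4 : W.card ≤ ((s - s' + 1) * (g * p ^ 2)) / 18 := by omega
        have h5 : 18 * (((s - s' + 1) * (g * p ^ 2)) / 18) ≤ (s - s' + 1) * (g * p ^ 2) :=
          Nat.mul_div_le _ _
        have h6 : (s - s' + 1) * (g * p ^ 2 + 1) = (s - s' + 1) * (g * p ^ 2) + (s - s' + 1) := by ring
        omega
      have hch : ∀ b : Fin s, ∃ e₁ e₂ : Dir p g → Option (ZMod p),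
          (∀ d v, e₁ d = some v → v ∉ W₁ b d) ∧ (∀ d v, e₂ d = some v → v ∉ W₂ b d) ∧
          (b ∈ Gd → ((univ.filter (fun x : Atom p K => (∀ d, e₁ d ≠ some (lin d x)) ∧
            ∀ d, e₂ d ≠ some (lin d x))).card : ℝ) ≤ (Fintype.card (Atom p K) : ℝ) * ε) := by
        intro b
        by_cases hb : b ∈ Gd
        · obtain ⟨e₁, e₂, h1, h2, h3⟩ := hG (W₁ b) (W₂ b) (Finset.mem_filter.mp hb).2
          exact ⟨e₁, e₂, h1, h2, fun _ => h3⟩
        · exact ⟨fun _ => none, fun _ => none, by simp, by simp, fun h => absurd h hb⟩
      choose e₁ e₂ he₁ he₂ hcount using hch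
      let e : ι → V := fun i =>
        match i with
        | Sum.inl (b, false, d) => (e₁ b d).elim (Sum.inr m) Sum.inl
        | Sum.inl (b, true, d) => (e₂ b d).elim (Sum.inr m) Sum.inl
        | Sum.inr _ => Sum.inr m
      have hef : ∀ b d, e (Sum.inl (b, false, d)) = (e₁ b d).elim (Sum.inr m) Sum.inl := fun b d => rfl
      have het : ∀ b d, e (Sum.inl (b, true, d)) = (e₂ b d).elim (Sum.inr m) Sum.inl := fun b d => rfl
      refine ⟨e, ?_, ?_⟩
      · rw [Finset.mem_filter]
        refine ⟨Finset.mem_univ _, hGd.trans (Finset.card_le_card ?_)⟩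
        intro b hb
        rw [Finset.mem_filter]
        refine ⟨Finset.mem_univ _, le_trans ?_ (hcount b hb)⟩
        have : miss e b ⊆ univ.filter (fun x : Atom p K => (∀ d, e₁ b d ≠ some (lin d x)) ∧
            ∀ d, e₂ b d ≠ some (lin d x)) := by
          intro x hx
          rw [Finset.mem_filter] at hx ⊢
          refine ⟨Finset.mem_univ _, ?_, ?_⟩
          · intro d hd
            apply hx.2 false d
            rw [hef, hd]; rfl
          · intro d hd
            apply hx.2 true d
            rw [het, hd]; rfl
        exact_mod_cast Finset.card_le_card this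
      · rintro (⟨b, β, d⟩ | j)
        · cases β
          · rw [hef]
            rcases hv : e₁ b d with _ | v
            · exact hm _
            · have := he₁ b d v hv
              simp only [W₁, Finset.mem_filter, Finset.mem_univ, true_and] at this
              exact this
          · rw [het]
            rcases hv : e₂ b d with _ | v
            · exact hm _
            · have := he₂ b d v hv
              simp only [W₂, Finset.mem_filter, Finset.mem_univ, true_and] at this
              exact this
        · exact hm _
    · rw [← hr]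
      simp only [ι, Fintype.card_sum, Fintype.card_prod, Fintype.card_fin, Fintype.card_bool,
        ZMod.card]
  obtain ⟨H, hH, htau⟩ := key
  exact ⟨H, hH, by omega⟩

end H19RP
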