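import Mathlib
import Pool.Agent.H19.RX.Par
import Pool.Agent.H23.CB.Prod

/-! The lower bound `f_r(k) >= r^2 A / (73728 g l)`, `l = 1 + log (k / r)`, from a gadget with
parameters `g, K, A`, `A <= 2 l`, with an explicit condition on the primes. -/

namespace H19RP

open Finset

theorem lower_param_rest (g K P₀ : ℕ) (A : ℝ) (hg : 0 < g) (hK1 : 1 ≤ K) (hA0 : 0 < A) (r k : ℕ)
    (hr : 2 ≤ r) (hrk : r ≤ k) (hLA : A ≤ 1 + Real.log (k / r))
    (hbigR : 128 * g * (P₀ + 5) * (1 + Real.log (k / r)) ≤ A * r)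
    (hgad : ∀ p : ℕ, P₀ ≤ p → p.Prime → ∀ [NeZero p], GadgetProp g K p (Real.exp (-A))) :
    ∃ H : Finset (Fin r → ℕ), IntersectinglyCovered k H ∧
      (r : ℝ) ^ 2 * A / (73728 * g * (1 + Real.log (k / r))) ≤ tau H := by
  set ε : ℝ := Real.exp (-A) with hε
  have hgR : (0 : ℝ) < g := by exact_mod_cast hg
  have hεpos : 0 < ε := Real.exp_pos _
  have hε1 : ε ≤ 1 := by
    rw [hε]
    exact Real.exp_le_one_iff.mpr (by linarith)
  have hrR : (2 : ℝ) ≤ r := by exact_mod_cast hr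
  have hkR : (r : ℝ) ≤ k := by exact_mod_cast hrk
  have hkpos : (0 : ℝ) < k := by linarith
  have hrpos : (0 : ℝ) < r := by linarith
  set L : ℝ := 1 + Real.log (k / r) with hL
  have hLpos : 0 < L := by linarith
  set s' : ℕ := ⌊2 * L / A⌋₊ + 1 with hs'
  have hs'pos : (0 : ℝ) < s' := by rw [hs']; positivity
  have hs'1 : 2 * L / A < s' := by
    rw [hs']; push_cast; exact Nat.lt_floor_add_one _
  have hs'2 : (s' : ℝ) ≤ 4 * L / A := by
    rw [hs']; push_cast
    have h1 : (⌊2 * L / A⌋₊ : ℝ) ≤ 2 * L / A := Nat.floor_le (by positivity)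
    have h2 : 1 ≤ 2 * L / A := by rw [le_div_iff₀ hA0]; linarith
    have h3 : 4 * L / A = 2 * L / A + 2 * L / A := by ring
    linarith
  have h2' : (s' : ℝ) * A ≤ 4 * L := by
    rw [le_div_iff₀ hA0] at hs'2; exact hs'2
  set s : ℕ := 2 * s' with hs
  set N : ℕ := (r - 1) / (4 * g * s) with hN
  have hs'p : 0 < s' := by omega
  have hgs : 0 < 4 * g * s := by positivity
  set n : ℕ := N / 2 with hn
  have hr1 : ((r - 1 : ℕ) : ℝ) = r - 1 := by
    rw [Nat.cast_sub (by omega)]; simp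
  have hbig : (2 * (P₀ + 5) : ℕ) ≤ N := by
    rw [hN, Nat.le_div_iff_mul_le hgs]
    have h1 : ((2 * (P₀ + 5) * (4 * g * s) : ℕ) : ℝ) ≤ ((r - 1 : ℕ) : ℝ) := by
      rw [hr1]
      push_cast
      rw [hs]
      push_cast
      have h5 : A * (2 * (P₀ + 5) * (4 * g * (2 * s'))) ≤ A * (r - 1) := by
        have h6 : A * (2 * ((P₀ : ℝ) + 5) * (4 * g * (2 * s'))) = 16 * g * (P₀ + 5) * (s' * A) := by
          ring
        rw [h6]
        have h7 : 16 * (g : ℝ) * (P₀ + 5) * (s' * A) ≤ 16 * g * (P₀ + 5) * (4 * L) :=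
          mul_le_mul_of_nonneg_left h2' (by positivity)
        have h8 : A * r ≤ 2 * (A * (r - 1)) := by nlinarith
        linarith
      exact le_of_mul_le_mul_left h5 hA0
    exact_mod_cast h1
  have hnP : P₀ + 5 ≤ n := by omega
  obtain ⟨p, hp, hnp, hp2n⟩ := Nat.exists_prime_lt_and_le_two_mul n (by omega)
  have hne : NeZero p := ⟨hp.ne_zero⟩
  have hpN : p ≤ N := by omega
  have hpr : 2 * (s * (2 * (p * g))) ≤ r - 1 := by
    have h1 : N * (4 * g * s) ≤ r - 1 := Nat.div_mul_le_self _ _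
    have h2 : 2 * (s * (2 * (p * g))) ≤ N * (4 * g * s) := by
      calc 2 * (s * (2 * (p * g))) = p * (4 * g * s) := by ring
        _ ≤ N * (4 * g * s) := Nat.mul_le_mul_right _ hpN
    omega
  have hG : GadgetProp g K p ε := hgad p (by omega) hp
  set rest : ℕ := r - 1 - s * (2 * (p * g)) with hrest
  have hrest1 : s * (2 * (p * g)) + rest + 1 = r := by omega
  have hrest2 : (r : ℝ) ≤ 2 * (rest + 1) := by
    have : r ≤ 2 * (rest + 1) := by omega
    exact_mod_cast this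
  have hkε : (k : ℝ) * ε ^ s' < rest + 1 := by
    have h2 : 2 * L < s' * A := by
      rw [div_lt_iff₀ hA0] at hs'1; exact hs'1
    have h3 : ε ^ s' < Real.exp (-(2 * L)) := by
      rw [hε, ← Real.exp_nat_mul]
      exact Real.exp_lt_exp.mpr (by linarith)
    have h4 : Real.exp (-(2 * L)) = Real.exp (-2) * (r / k) ^ 2 := by
      have h5 : -(2 * L) = -2 + (-Real.log (k / r) + -Real.log (k / r)) := by rw [hL]; ring
      have h6 : Real.exp (-Real.log (k / r)) = r / k := by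
        rw [Real.exp_neg, Real.exp_log (by positivity), inv_div]
      rw [h5, Real.exp_add, Real.exp_add, h6]; ring
    have h7 : Real.exp (-2) ≤ 1 / 2 := by
      rw [Real.exp_neg, ← one_div]
      apply one_div_le_one_div_of_le (by norm_num)
      have := Real.add_one_le_exp (2 : ℝ)
      linarith
    have h8 : (r : ℝ) / k ≤ 1 := by rw [div_le_one hkpos]; exact hkR
    have h9 : (k : ℝ) * ε ^ s' < k * (Real.exp (-2) * (r / k) ^ 2) := by
      rw [← h4]; exact mul_lt_mul_of_pos_left h3 hkpos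
    have h10 : (k : ℝ) * (Real.exp (-2) * (r / k) ^ 2) = Real.exp (-2) * (r / k) * r := by
      field_simp
    have h11 : 0 ≤ (r : ℝ) / k := by positivity
    have h12 : Real.exp (-2) * (r / k) ≤ 1 / 2 := by nlinarith [Real.exp_pos (-2)]
    have h13 : Real.exp (-2) * (r / k) * r ≤ 1 / 2 * r := mul_le_mul_of_nonneg_right h12 hrpos.le
    linarith
  obtain ⟨H, hH, htau⟩ := product_constr_rest g K p s s' rest k r ε hεpos.le hε1 hG
    hK1 (by omega) hrest1 hkε
  refine ⟨H, hH, ?_⟩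
  -- numerical estimate
  have hpR : (r : ℝ) / (32 * g * s') ≤ p := by
    have h1 : N + 1 ≤ 2 * p := by omega
    have h2 : r - 1 < (N + 1) * (4 * g * s) := by
      have := Nat.lt_div_mul_add (a := r - 1) hgs
      rw [add_mul, one_mul]
      exact this
    have h3 : ((r - 1 : ℕ) : ℝ) < ((2 * p * (4 * g * s) : ℕ) : ℝ) := by
      have : r - 1 < 2 * p * (4 * g * s) := lt_of_lt_of_le h2 (Nat.mul_le_mul_right _ h1)
      exact_mod_cast this
    rw [hr1] at h3
    push_cast at h3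
    rw [hs] at h3
    push_cast at h3
    rw [div_le_iff₀ (by positivity)]
    nlinarith
  have htau2 : (s' : ℝ) * (g * (p : ℝ) ^ 2) / 18 ≤ tau H := by
    have h0 : 18 ≤ g * p ^ 2 := by
      have h6 : 6 ≤ p := by omega
      have h7 : 36 ≤ p ^ 2 := by nlinarith
      nlinarith
    have h1 : s' * (g * p ^ 2) ≤ 18 * tau H := by
      have h2 : s' * (g * p ^ 2) + g * p ^ 2 ≤ (s - s' + 1) * (g * p ^ 2) := by
        calc s' * (g * p ^ 2) + g * p ^ 2 = (s' + 1) * (g * p ^ 2) := by ring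
          _ ≤ (s - s' + 1) * (g * p ^ 2) := Nat.mul_le_mul_right _ (by omega)
      omega
    have h2 : ((s' * (g * p ^ 2) : ℕ) : ℝ) ≤ ((18 * tau H : ℕ) : ℝ) := by exact_mod_cast h1
    push_cast at h2
    linarith
  refine le_trans ?_ htau2
  have h1 : ((r : ℝ) / (32 * g * s')) ^ 2 ≤ (p : ℝ) ^ 2 := pow_le_pow_left₀ (by positivity) hpR 2
  have h2 : (s' : ℝ) * (g * ((r : ℝ) / (32 * g * s')) ^ 2) / 18 ≤ (s' : ℝ) * (g * (p : ℝ) ^ 2) / 18 := by
    apply div_le_div_of_nonneg_right _ (by norm_num)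
    apply mul_le_mul_of_nonneg_left _ (by positivity)
    exact mul_le_mul_of_nonneg_left h1 (by positivity)
  refine le_trans ?_ h2
  have h3 : (s' : ℝ) * (g * ((r : ℝ) / (32 * g * s')) ^ 2) / 18 = (r : ℝ) ^ 2 / (18432 * g * s') := by
    field_simp; ring
  rw [h3, div_le_div_iff₀ (by positivity) (by positivity)]
  have h9 : 0 ≤ (r : ℝ) ^ 2 := by positivity
  calc (r : ℝ) ^ 2 * A * (18432 * g * s') = (r : ℝ) ^ 2 * (18432 * g) * (s' * A) := by ring
    _ ≤ (r : ℝ) ^ 2 * (18432 * g) * (4 * L) := mul_le_mul_of_nonneg_left h2' (by positivity)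
    _ = (r : ℝ) ^ 2 * (73728 * g * L) := by ring

end H19RP
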